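import Pool.Agent.Run7.h277.WF.Main

/-!
Base point freeness on subschemes of products of weighted projective spaces with pairwise coprime
weights.
-/

set_option autoImplicit false

namespace Pool.Agent.Run7.h277.WF

open Finset MvPolynomial

section spec

variable {r : ℕ} {N : Fin r → ℕ}

/-- replace the coordinates of the factor `s` -/
def repl (s : Fin r) (v : (t : Fin r) × Fin (N t + 1) → ℂ) (w : Fin (N s + 1) → ℂ) :
    (t : Fin r) × Fin (N t + 1) → ℂ :=
  fun p => if h : p.1 = s then w (h ▸ p.2) else v p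

/-- specialise the variables of the other factors -/
noncomputable def spec (s : Fin r) (v : (t : Fin r) × Fin (N t + 1) → ℂ) :
    (t : Fin r) × Fin (N t + 1) → MvPolynomial (Fin (N s + 1)) ℂ :=
  fun p => if h : p.1 = s then X (h ▸ p.2) else C (v p)

theorem repl_self (s : Fin r) (v : (t : Fin r) × Fin (N t + 1) → ℂ) :
    repl s v (fun i => v ⟨s, i⟩) = v := by
  funext p
  obtain ⟨t, i⟩ := p
  unfold repl
  by_cases h : t = s
  · subst h
    simp
  · simp [h]

theorem repl_same (s : Fin r) (v : (t : Fin r) × Fin (N t + 1) → ℂ) (w : Fin (N s + 1) → ℂ)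
    (i : Fin (N s + 1)) : repl s v w ⟨s, i⟩ = w i := by
  unfold repl
  simp

theorem repl_other {s t : Fin r} (h : t ≠ s) (v : (t : Fin r) × Fin (N t + 1) → ℂ)
    (w : Fin (N s + 1) → ℂ) (i : Fin (N t + 1)) : repl s v w ⟨t, i⟩ = v ⟨t, i⟩ := by
  unfold repl
  simp [h]

theorem eval_spec (s : Fin r) (v : (t : Fin r) × Fin (N t + 1) → ℂ) (w : Fin (N s + 1) → ℂ)
    (f : MvPolynomial ((t : Fin r) × Fin (N t + 1)) ℂ) :
    eval w (aeval (spec s v) f) = eval (repl s v w) f := by
  induction f using MvPolynomial.induction_on with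
  | C a => simp
  | add p q hp hq => rw [map_add, map_add, map_add, hp, hq]
  | mul_X p i hp =>
    rw [map_mul, map_mul, map_mul, hp, aeval_X, eval_X]
    congr 1
    unfold spec repl
    split_ifs with h
    · rw [eval_X]
    · rw [eval_C]

theorem wh_spec (s : Fin r) (v : (t : Fin r) × Fin (N t + 1) → ℂ)
    {a : ∀ t, Fin (N t + 1) → ℕ} {f : MvPolynomial ((t : Fin r) × Fin (N t + 1)) ℂ} {d : ℕ}
    (hf : IsWeightedHomogeneous (fun p : (t : Fin r) × Fin (N t + 1) =>
      if p.1 = s then a p.1 p.2 else 0) f d) :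
    IsWeightedHomogeneous (a s) (aeval (spec s v) f) d := by
  classical
  have h1 : ∀ p : (t : Fin r) × Fin (N t + 1),
      IsWeightedHomogeneous (a s) (spec s v p) (if p.1 = s then a p.1 p.2 else 0) := by
    rintro ⟨t, i⟩
    unfold spec
    by_cases h : t = s
    · subst h
      simpa using isWeightedHomogeneous_X ℂ (a t) i
    · simpa [h] using isWeightedHomogeneous_C (a s) (v ⟨t, i⟩)
  rw [aeval_def, eval₂_eq']
  refine IsWeightedHomogeneous.sum _ _ _ fun α hα => ?_
  have h2 : IsWeightedHomogeneous (a s) (∏ p, spec s v p ^ α p)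
      (∑ p, α p • (if p.1 = s then a p.1 p.2 else 0)) :=
    IsWeightedHomogeneous.prod _ _ _ fun p _ => (h1 p).pow _
  have h3 : ∑ p, α p • (if p.1 = s then a p.1 p.2 else 0) = d := by
    have h := hf (MvPolynomial.mem_support_iff.1 hα)
    rw [Finsupp.weight_apply, Finsupp.sum_fintype _ _ (fun i => by simp)] at h
    exact h
  rw [h3] at h2
  exact h2.C_mul _

theorem const_of_zero {σ : Type} [Fintype σ] {a : σ → ℕ} (ha : ∀ i, 0 < a i)
    {g : MvPolynomial σ ℂ} (hg : IsWeightedHomogeneous a g 0) (x y : σ → ℂ) :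
    eval x g = eval y g := by
  have h0 : ∀ α ∈ g.support, α = 0 := by
    intro α hα
    have h := weight_eq hg hα
    ext i
    have h1 := (Finset.sum_eq_zero_iff.1 h) i (Finset.mem_univ i)
    rcases Nat.mul_eq_zero.1 h1 with h2 | h2
    · exact h2
    · have := ha i
      omega
  rw [eval_eq', eval_eq']
  refine Finset.sum_congr rfl fun α hα => ?_
  rw [h0 α hα]
  simp

end spec

theorem multi {r c : ℕ} (N : Fin r → ℕ) (a : ∀ s, Fin (N s + 1) → ℕ) (ha : ∀ s i, 0 < a s i)
    (hcop : ∀ s i i', i ≠ i' → Nat.Coprime (a s i) (a s i')) (d : Fin c → Fin r → ℕ)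
    (f : Fin c → MvPolynomial ((s : Fin r) × Fin (N s + 1)) ℂ)
    (hf : ∀ j s, IsWeightedHomogeneous (fun p : (t : Fin r) × Fin (N t + 1) =>
      if p.1 = s then a p.1 p.2 else 0) (f j) (d j s))
    (hgcd : ∀ v : (s : Fin r) × Fin (N s + 1) → ℂ, (∀ s, ∃ i, v ⟨s, i⟩ ≠ 0) →
      (∀ j, eval v (f j) = 0) → ∀ s, ∀ g : ℕ, (∀ i, v ⟨s, i⟩ ≠ 0 → g ∣ a s i) → g = 1)
    (n : ℕ) (hn : n + c = ∑ s, N s)
    (hz : ∀ s, (Finset.univ.filter fun j => d j s = 0).card + N s ≤ ∑ t, N t)
    (v : (s : Fin r) × Fin (N s + 1) → ℂ) (hv : ∀ s, ∃ i, v ⟨s, i⟩ ≠ 0)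
    (hvf : ∀ j, eval v (f j) = 0) (s : Fin r) (e : ℤ)
    (he : ∑ j, (d j s : ℤ) - ∑ i, (a s i : ℤ) + n + 1 ≤ e) :
    0 ≤ e ∧ ∃ y : Fin (N s + 1) → ℕ, (∀ i, y i ≠ 0 → v ⟨s, i⟩ ≠ 0) ∧
      ∑ i, (y i : ℤ) * a s i = e := by
  classical
  have hwh := fun j => wh_spec (a := a) s v (hf j s)
  have hself : ∀ j, eval (fun i => v ⟨s, i⟩) (aeval (spec s v) (f j)) = 0 := by
    intro j
    rw [eval_spec, repl_self]
    exact hvf j
  obtain ⟨h1, h2⟩ := main (K := ℂ) (κ := {j : Fin c // 0 < d j s}) (a s) (ha s) (hcop s)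
    (fun j => d j.1 s) (fun j => j.2) (fun j => aeval (spec s v) (f j.1)) (fun j => hwh j.1)
    (by
      intro i hi
      by_contra hcon
      push Not at hcon
      have h3 := hgcd (repl s v (Pi.single i 1)) (by
        intro t
        by_cases ht : t = s
        · subst ht
          exact ⟨i, by rw [repl_same]; simp⟩
        · obtain ⟨l, hl⟩ := hv t
          exact ⟨l, by rw [repl_other ht]; exact hl⟩) (by
        intro j
        rw [← eval_spec]
        by_cases hj : 0 < d j s
        · exact hcon ⟨j, hj⟩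
        · have h4 := hwh j
          have h5 : d j s = 0 := by omega
          rw [h5] at h4
          rw [const_of_zero (ha s) h4 (Pi.single i 1) (fun i => v ⟨s, i⟩)]
          exact hself j) s (a s i) (by
        intro l hl
        rw [repl_same] at hl
        by_cases hli : l = i
        · rw [hli]
        · exact absurd (Pi.single_eq_of_ne hli 1) hl)
      omega)
    e (by
      refine le_trans ?_ he
      have h6 : ∑ j : {j : Fin c // 0 < d j s}, ((d j.1 s : ℤ) - 1) =
          ∑ j ∈ Finset.univ.filter (fun j => 0 < d j s), ((d j s : ℤ) - 1) :=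
        (Finset.sum_subtype (p := fun j => 0 < d j s)
          (Finset.univ.filter (fun j => 0 < d j s)) (fun j => by simp)
          (fun j => (d j s : ℤ) - 1)).symm
      have h7 : ∑ j ∈ Finset.univ.filter (fun j => ¬ 0 < d j s), ((d j s : ℤ) - 1) =
          - ((Finset.univ.filter fun j => d j s = 0).card : ℤ) := by
        have h8 : (Finset.univ.filter fun j => ¬ 0 < d j s) =
            Finset.univ.filter fun j => d j s = 0 := by
          ext j
          simp
        rw [h8, Finset.sum_congr rfl (fun j hj => by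
          rw [(Finset.mem_filter.1 hj).2] : ∀ j ∈ Finset.univ.filter (fun j => d j s = 0),
            ((d j s : ℤ) - 1) = ((0 : ℕ) : ℤ) - 1)]
        simp
      have h9 := Finset.sum_filter_add_sum_filter_not Finset.univ (fun j => 0 < d j s)
        (fun j => (d j s : ℤ) - 1)
      have h10 : ∑ j, ((d j s : ℤ) - 1) = ∑ j, (d j s : ℤ) - c := by
        rw [Finset.sum_sub_distrib]
        simp
      have h11 : ∑ i, ((a s i : ℤ) - 1) = ∑ i, (a s i : ℤ) - (N s + 1) := by
        rw [Finset.sum_sub_distrib]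
        simp
      have h12 : (((Finset.univ.filter fun j => d j s = 0).card : ℤ)) + N s ≤ ∑ t, (N t : ℤ) := by
        exact_mod_cast hz s
      have h13 : (n : ℤ) + c = ∑ t, (N t : ℤ) := by exact_mod_cast hn
      rw [h6, h11]
      linarith)
  obtain ⟨y, hy1, hy2⟩ := h2 (fun i => v ⟨s, i⟩) (by
    obtain ⟨i, hi⟩ := hv s
    intro h
    exact hi (congrFun h i)) (fun j => hself j.1)
  exact ⟨h1, y, hy1, hy2⟩

end Pool.Agent.Run7.h277.WF
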