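import Mathlib

/-!
A bound for the Frobenius number of a numerical semigroup from relations between its generators,
by a chip-firing argument.
-/

set_option autoImplicit false

namespace Pool.Agent.Run7.h277.WF

open Finset

variable {ι : Type} [DecidableEq ι]

/-- the vertices from which the vertex `i0` can be reached in at most `k` steps -/
noncomputable def Uset (T : Finset ι) (lam : ι → ι → ℕ) (i0 : ι) : ℕ → Finset ι
  | 0 => {i0}
  | k + 1 => by
    classical
    exact Uset T lam i0 k ∪ T.filter fun i => ∃ l ∈ Uset T lam i0 k, l ∈ T ∧ 0 < lam i l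

theorem exists_dist {T : Finset ι} {lam : ι → ι → ℕ} {i0 : ι}
    (hreach : ∀ V ⊆ T, V.Nonempty → (∀ i ∈ V, ∀ l ∈ T, 0 < lam i l → l ∈ V) → i0 ∈ V) :
    ∃ dist : ι → ℕ, ∀ i ∈ T, i ≠ i0 → ∃ l ∈ T, 0 < lam i l ∧ dist l < dist i := by
  classical
  have hall : ∀ i ∈ T, ∃ k, i ∈ Uset T lam i0 k := by
    by_contra hcon
    push Not at hcon
    obtain ⟨i, hi, hik⟩ := hcon
    have h1 := hreach (T.filter fun i => ∀ k, i ∉ Uset T lam i0 k) (Finset.filter_subset _ _)
      ⟨i, Finset.mem_filter.2 ⟨hi, hik⟩⟩ (by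
        intro i hi l hl hil
        rw [Finset.mem_filter] at hi ⊢
        refine ⟨hl, fun k hk => hi.2 (k + 1) ?_⟩
        unfold Uset
        exact Finset.mem_union_right _ (Finset.mem_filter.2 ⟨hi.1, l, hk, hl, hil⟩))
    have h2 := (Finset.mem_filter.1 h1).2 0
    apply h2
    unfold Uset
    exact Finset.mem_singleton_self i0
  refine ⟨fun i => if h : ∃ k, i ∈ Uset T lam i0 k then Nat.find h else 0, fun i hi hne => ?_⟩
  have h := hall i hi
  have hspec := Nat.find_spec h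
  obtain ⟨k, hk⟩ : ∃ k, Nat.find h = k + 1 := by
    rcases Nat.eq_zero_or_pos (Nat.find h) with h0 | h0
    · exfalso
      rw [h0] at hspec
      unfold Uset at hspec
      exact hne (Finset.mem_singleton.1 hspec)
    · exact ⟨Nat.find h - 1, by omega⟩
  rw [hk] at hspec
  have hnot : i ∉ Uset T lam i0 k := Nat.find_min h (by omega)
  unfold Uset at hspec
  rcases Finset.mem_union.1 hspec with h1 | h1
  · exact absurd h1 hnot
  · obtain ⟨-, l, hl, hlT, hil⟩ := Finset.mem_filter.1 h1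
    refine ⟨l, hlT, hil, ?_⟩
    have h2 : ∃ k, l ∈ Uset T lam i0 k := ⟨k, hl⟩
    simp only [dif_pos h, dif_pos h2]
    rw [hk]
    exact Nat.lt_succ_of_le (Nat.find_min' h2 hl)

/-- **The bound.** -/
theorem chip {T : Finset ι} {a m : ι → ℕ} {lam : ι → ι → ℕ} {i0 : ι} (hi0 : i0 ∈ T)
    (ha : ∀ i ∈ T, 0 < a i) (hrel : ∀ i ∈ T, m i * a i = ∑ l ∈ T, lam i l * a l)
    (hreach : ∀ V ⊆ T, V.Nonempty → (∀ i ∈ V, ∀ l ∈ T, 0 < lam i l → l ∈ V) → i0 ∈ V)
    {z : ι → ℤ} (hz : ∑ i ∈ T, z i * a i = 1) {e : ℤ}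
    (he : ∑ i ∈ T.erase i0, ((m i : ℤ) - 1) * a i - a i0 < e) :
    ∃ y : ι → ℕ, ∑ i ∈ T, (y i : ℤ) * a i = e := by
  classical
  by_contra hcon
  push Not at hcon
  obtain ⟨dist, hdist⟩ := exists_dist hreach
  obtain ⟨D, hD⟩ : ∃ D, ∀ i ∈ T, dist i ≤ D := ⟨T.sup dist, fun i hi => Finset.le_sup hi⟩
  obtain ⟨M, hM⟩ : ∃ M : ℕ, M = 1 + ∑ i ∈ T, m i := ⟨_, rfl⟩
  have hMm : ∀ i ∈ T, m i < M := by
    intro i hi
    have := Finset.single_le_sum (f := m) (fun _ _ => Nat.zero_le _) hi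
    omega
  have hM1 : 1 ≤ M := by omega
  obtain ⟨w, hw⟩ : ∃ w : ι → ℕ, w = fun i => if i = i0 then a i0 * M ^ (D + 1)
    else M ^ (D - dist i) := ⟨_, rfl⟩
  have hwle : ∀ i ∈ T, i ≠ i0 → w i ≤ M ^ (D + 1) * a i := by
    intro i hi hne
    rw [hw]
    simp only [if_neg hne]
    calc M ^ (D - dist i) ≤ M ^ (D + 1) := Nat.pow_le_pow_right hM1 (by omega)
      _ ≤ M ^ (D + 1) * a i := Nat.le_mul_of_pos_right _ (ha i hi)
  have hw0 : w i0 = M ^ (D + 1) * a i0 := by
    rw [hw]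
    simp only [if_true]
    ring
  -- firing increases the weight
  have hfire : ∀ i ∈ T, i ≠ i0 → m i * w i < ∑ l ∈ T, lam i l * w l := by
    intro i hi hne
    obtain ⟨l, hl, hil, hdl⟩ := hdist i hi hne
    have hDi := hD i hi
    have h1 : m i * w i < w l := by
      rw [hw]
      simp only [if_neg hne]
      have hpos : 0 < M ^ (D - dist i) := Nat.pow_pos hM1
      have h2 : m i * M ^ (D - dist i) < M * M ^ (D - dist i) :=
        Nat.mul_lt_mul_of_pos_right (hMm i hi) hpos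
      refine lt_of_lt_of_le h2 ?_
      rw [← pow_succ']
      split_ifs with h3
      · calc M ^ (D - dist i + 1) ≤ M ^ (D + 1) := Nat.pow_le_pow_right hM1 (by omega)
          _ ≤ a i0 * M ^ (D + 1) := Nat.le_mul_of_pos_left _ (ha i0 hi0)
      · exact Nat.pow_le_pow_right hM1 (by omega)
    have h2 : w l ≤ lam i l * w l := Nat.le_mul_of_pos_left _ hil
    have h3 := Finset.single_le_sum (f := fun l => lam i l * w l) (fun _ _ => Nat.zero_le _) hl
    exact lt_of_lt_of_le h1 (h2.trans h3)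
  -- the set of the representations with one coefficient perhaps negative
  have hbd : ∀ x : ι → ℤ, (∀ i ∈ T, i ≠ i0 → 0 ≤ x i) → ∑ i ∈ T, x i * a i = e →
      ∑ i ∈ T, x i * w i ≤ (M : ℤ) ^ (D + 1) * e := by
    intro x hx hxe
    rw [← hxe, Finset.mul_sum]
    refine Finset.sum_le_sum fun i hi => ?_
    by_cases hne : i = i0
    · rw [hne, hw0]
      push_cast
      exact le_of_eq (by ring)
    · have h1 : (w i : ℤ) ≤ (M : ℤ) ^ (D + 1) * a i := by exact_mod_cast hwle i hi hne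
      have h2 := mul_le_mul_of_nonneg_left h1 (hx i hi hne)
      linarith
  -- there is one
  obtain ⟨x0, hx0, hx0e⟩ : ∃ x : ι → ℤ, (∀ i ∈ T, i ≠ i0 → 0 ≤ x i) ∧
      ∑ i ∈ T, x i * a i = e := by
    obtain ⟨B, hB⟩ : ∃ B : ℤ, B = ∑ i ∈ T, |e * z i| := ⟨_, rfl⟩
    refine ⟨fun i => if i = i0 then e * z i0 - B * ∑ l ∈ T.erase i0, (a l : ℤ)
      else e * z i + B * a i0, fun i hi hne => ?_, ?_⟩
    · simp only [if_neg hne]
      have h1 : |e * z i| ≤ B := by
        rw [hB]
        exact Finset.single_le_sum (f := fun i => |e * z i|) (fun _ _ => abs_nonneg _) hi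
      have h2 : (1 : ℤ) ≤ a i0 := by exact_mod_cast ha i0 hi0
      have h3 := neg_abs_le (e * z i)
      have h4 : 0 ≤ B := (abs_nonneg _).trans h1
      nlinarith
    · rw [← Finset.add_sum_erase T _ hi0]
      simp only [if_true]
      have h1 : ∑ i ∈ T.erase i0, (if i = i0 then e * z i0 - B * ∑ l ∈ T.erase i0, (a l : ℤ)
          else e * z i + B * a i0) * (a i : ℤ) =
          ∑ i ∈ T.erase i0, (e * (z i * a i) + B * a i0 * a i) := by
        refine Finset.sum_congr rfl fun i hi => ?_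
        rw [if_neg (Finset.ne_of_mem_erase hi)]
        ring
      rw [h1, Finset.sum_add_distrib, ← Finset.mul_sum, ← Finset.mul_sum]
      have h2 : z i0 * a i0 + ∑ i ∈ T.erase i0, z i * (a i : ℤ) = 1 := by
        rw [Finset.add_sum_erase T (fun i => z i * (a i : ℤ)) hi0]
        exact hz
      have h3 : ∑ i ∈ T.erase i0, z i * (a i : ℤ) = 1 - z i0 * a i0 := by linarith
      rw [h3]
      ring
  obtain ⟨v, ⟨x, hx, hxe, hxv⟩, hmax⟩ := Int.exists_greatest_of_bdd
    (P := fun v => ∃ x : ι → ℤ, (∀ i ∈ T, i ≠ i0 → 0 ≤ x i) ∧ ∑ i ∈ T, x i * a i = e ∧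
      ∑ i ∈ T, x i * w i = v) ⟨(M : ℤ) ^ (D + 1) * e, by
        rintro v ⟨x, hx, hxe, rfl⟩
        exact hbd x hx hxe⟩ ⟨_, x0, hx0, hx0e, rfl⟩
  have hneg : x i0 < 0 := by
    by_contra hge
    push Not at hge
    refine hcon (fun i => (x i).toNat) ?_
    rw [← hxe]
    refine Finset.sum_congr rfl fun i hi => ?_
    rw [Int.toNat_of_nonneg]
    by_cases hne : i = i0
    · rw [hne]
      exact hge
    · exact hx i hi hne
  obtain ⟨i, hi, hmi⟩ : ∃ i ∈ T.erase i0, (m i : ℤ) ≤ x i := by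
    by_contra hno
    push Not at hno
    have h1 : ∑ i ∈ T.erase i0, x i * a i ≤ ∑ i ∈ T.erase i0, ((m i : ℤ) - 1) * a i := by
      refine Finset.sum_le_sum fun i hi => ?_
      have := hno i hi
      exact mul_le_mul_of_nonneg_right (by linarith) (by positivity)
    have h2 : x i0 * a i0 + ∑ i ∈ T.erase i0, x i * (a i : ℤ) = e := by
      rw [Finset.add_sum_erase T (fun i => x i * (a i : ℤ)) hi0]
      exact hxe
    have h3 : x i0 * a i0 ≤ (-1) * a i0 :=
      mul_le_mul_of_nonneg_right (by linarith) (by positivity)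
    linarith
  obtain ⟨hne, hiT⟩ := Finset.mem_erase.1 hi
  have hsum : ∀ u : ι → ℕ, ∑ l ∈ T, (x l + lam i l - if l = i then (m i : ℤ) else 0) * u l =
      ∑ l ∈ T, x l * u l + ∑ l ∈ T, (lam i l : ℤ) * u l - m i * u i := by
    intro u
    have h1 : ∀ l ∈ T, (x l + lam i l - if l = i then (m i : ℤ) else 0) * u l =
        x l * u l + (lam i l : ℤ) * u l - (if l = i then (m i : ℤ) * u i else 0) := by
      intro l _
      split_ifs with h
      · rw [h]
        ring
      · ring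
    rw [Finset.sum_congr rfl h1, Finset.sum_sub_distrib, Finset.sum_add_distrib,
      Finset.sum_ite_eq' T i, if_pos hiT]
  have h1 := hmax _ ⟨fun l => x l + lam i l - if l = i then (m i : ℤ) else 0,
    fun l hl hl0 => ?_, ?_, rfl⟩
  · rw [hsum, ← hxv] at h1
    have h2 : ((m i * w i : ℕ) : ℤ) < ((∑ l ∈ T, lam i l * w l : ℕ) : ℤ) := by
      exact_mod_cast hfire i hiT hne
    push_cast at h2
    linarith
  · beta_reduce
    have h3 := hx l hl hl0
    split_ifs with h
    · rw [h]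
      have : (0 : ℤ) ≤ lam i i := by positivity
      linarith
    · have : (0 : ℤ) ≤ lam i l := by positivity
      linarith
  · rw [hsum, hxe]
    have h2 : ((m i * a i : ℕ) : ℤ) = ((∑ l ∈ T, lam i l * a l : ℕ) : ℤ) := by
      exact_mod_cast hrel i hiT
    push_cast at h2
    linarith

end Pool.Agent.Run7.h277.WF
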