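import Pool.Agent.Run7.h277.WF.Chip

/-!
Numerical semigroups with pairwise coprime generators, each of which has a multiple in the
semigroup generated by the others: a bound for the Frobenius number.
-/

set_option autoImplicit false

namespace Pool.Agent.Run7.h277.WF

open Finset

variable {ι : Type} [DecidableEq ι]

/-- `e` is a nonnegative combination of the `a i`, `i ∈ T` -/
def Gen (T : Finset ι) (a : ι → ℕ) (e : ℕ) : Prop := ∃ y : ι → ℕ, ∑ i ∈ T, y i * a i = e

theorem Gen.single {T : Finset ι} {a : ι → ℕ} {i : ι} (hi : i ∈ T) : Gen T a (a i) := by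
  refine ⟨fun j => if j = i then 1 else 0, ?_⟩
  simp [hi]

omit [DecidableEq ι] in
theorem Gen.trans {T T' : Finset ι} {a : ι → ℕ} (h : ∀ i ∈ T, Gen T' a (a i)) {e : ℕ}
    (he : Gen T a e) : Gen T' a e := by
  choose! c hc using h
  obtain ⟨y, hy⟩ := he
  refine ⟨fun k => ∑ l ∈ T, y l * c l k, ?_⟩
  rw [← hy]
  calc ∑ k ∈ T', (∑ l ∈ T, y l * c l k) * a k
      = ∑ k ∈ T', ∑ l ∈ T, y l * (c l k * a k) := by
        refine Finset.sum_congr rfl fun k _ => ?_
        rw [Finset.sum_mul]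
        exact Finset.sum_congr rfl fun l _ => by ring
    _ = ∑ l ∈ T, ∑ k ∈ T', y l * (c l k * a k) := Finset.sum_comm
    _ = ∑ l ∈ T, y l * a l := by
        refine Finset.sum_congr rfl fun l hl => ?_
        rw [← Finset.mul_sum, hc l hl]

/-- the minimal generators -/
noncomputable def minGens (S : Finset ι) (a : ι → ℕ) : Finset ι := by
  classical
  exact S.filter fun i => ¬ Gen (S.filter fun l => a l < a i) a (a i)

omit [DecidableEq ι] in
theorem mem_minGens {S : Finset ι} {a : ι → ℕ} {i : ι} :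
    i ∈ minGens S a ↔ i ∈ S ∧ ¬ Gen (S.filter fun l => a l < a i) a (a i) := by
  classical
  unfold minGens
  exact Finset.mem_filter

omit [DecidableEq ι] in
theorem minGens_subset (S : Finset ι) (a : ι → ℕ) : minGens S a ⊆ S :=
  fun _ hi => (mem_minGens.1 hi).1

theorem gen_minGens (S : Finset ι) (a : ι → ℕ) : ∀ i ∈ S, Gen (minGens S a) a (a i) := by
  have key : ∀ N : ℕ, ∀ i ∈ S, a i = N → Gen (minGens S a) a (a i) := by
    intro N
    induction N using Nat.strong_induction_on with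
    | _ N ih =>
      intro i hi hN
      by_cases hm : i ∈ minGens S a
      · exact Gen.single hm
      · have h1 : Gen (S.filter fun l => a l < a i) a (a i) := by
          by_contra hcon
          exact hm (mem_minGens.2 ⟨hi, hcon⟩)
        refine Gen.trans (fun l hl => ?_) h1
        rw [Finset.mem_filter] at hl
        exact ih (a l) (by omega) l hl.1 rfl
  intro i hi
  exact key (a i) i hi rfl

theorem minGens_card {S : Finset ι} {a : ι → ℕ} (ha : ∀ i ∈ S, 0 < a i)
    (hinj : ∀ i ∈ S, ∀ l ∈ S, a i = a l → i = l) {i1 : ι} (hi1 : i1 ∈ minGens S a)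
    (hmin : ∀ i ∈ minGens S a, a i1 ≤ a i) : (minGens S a).card ≤ a i1 := by
  have hlt : ∀ i ∈ minGens S a, ∀ k ∈ minGens S a, a i < a k → a i % a i1 ≠ a k % a i1 := by
    intro i hi k hk hik hmod
    have h1 : ¬ Gen (S.filter fun l => a l < a k) a (a k) := (mem_minGens.1 hk).2
    apply h1
    have hpos := ha i1 (minGens_subset S a hi1)
    obtain ⟨t, ht⟩ : ∃ t, a k = a i + t * a i1 := by
      have h3 : a i1 ∣ a k - a i := (Nat.modEq_iff_dvd' hik.le).1 hmod
      obtain ⟨t, ht⟩ := h3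
      exact ⟨t, by rw [mul_comm t, ← ht]; omega⟩
    have hi' : i ∈ S.filter fun l => a l < a k :=
      Finset.mem_filter.2 ⟨minGens_subset S a hi, hik⟩
    have hi1' : i1 ∈ S.filter fun l => a l < a k :=
      Finset.mem_filter.2 ⟨minGens_subset S a hi1, lt_of_le_of_lt (hmin i hi) hik⟩
    refine ⟨fun j => (if j = i then 1 else 0) + (if j = i1 then t else 0), ?_⟩
    simp only [add_mul, Finset.sum_add_distrib, ite_mul, one_mul, zero_mul, Finset.sum_ite_eq', hi',
      hi1', if_true]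
    exact ht.symm
  have hpos := ha i1 (minGens_subset S a hi1)
  calc (minGens S a).card ≤ (Finset.range (a i1)).card := by
        refine Finset.card_le_card_of_injOn (fun i => a i % a i1) (fun i _ => ?_) ?_
        · exact Finset.mem_coe.2 (Finset.mem_range.2 (Nat.mod_lt _ hpos))
        · intro i hi k hk hik
          have hi' := Finset.mem_coe.1 hi
          have hk' := Finset.mem_coe.1 hk
          rcases lt_trichotomy (a i) (a k) with h | h | h
          · exact absurd hik (hlt i hi' k hk' h)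
          · exact hinj i (minGens_subset S a hi') k (minGens_subset S a hk') h
          · exact absurd hik.symm (hlt k hk' i hi' h)
    _ = a i1 := Finset.card_range _

theorem rel {S S0 : Finset ι} {a : ι → ℕ} (ha2 : ∀ i ∈ S, 2 ≤ a i)
    (hcop : ∀ i ∈ S, ∀ l ∈ S, i ≠ l → Nat.Coprime (a i) (a l)) (hS0 : S0 ⊆ S)
    (hgen : ∀ i ∈ S, Gen S0 a (a i)) {i : ι} (hi : i ∈ S0) {M : ℕ} {μ : ι → ℕ}
    (hM : M * a i = ∑ l ∈ S, μ l * a l) (hμ : μ i < M) :
    ∃ (m : ℕ) (lam : ι → ℕ), 1 ≤ m ∧ m ≤ M ∧ m * a i = ∑ l ∈ S0, lam l * a l ∧ lam i = 0 ∧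
      ∃ l ∈ S0, l ≠ i ∧ 0 < lam l := by
  choose! c hc using hgen
  have hiS := hS0 hi
  have hai := ha2 i hiS
  set w : ι → ℕ := fun k => ∑ l ∈ S.erase i, μ l * c l k with hw
  have hsum : ∑ l ∈ S.erase i, μ l * a l = ∑ k ∈ S0, w k * a k := by
    calc ∑ l ∈ S.erase i, μ l * a l = ∑ l ∈ S.erase i, ∑ k ∈ S0, μ l * (c l k * a k) := by
          refine Finset.sum_congr rfl fun l hl => ?_
          rw [← Finset.mul_sum, hc l (Finset.mem_of_mem_erase hl)]
      _ = ∑ k ∈ S0, ∑ l ∈ S.erase i, μ l * (c l k * a k) := Finset.sum_comm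
      _ = ∑ k ∈ S0, w k * a k := by
          refine Finset.sum_congr rfl fun k _ => ?_
          rw [hw]
          simp only
          rw [Finset.sum_mul]
          exact Finset.sum_congr rfl fun l _ => by ring
  have h1 : M * a i = μ i * a i + (w i * a i + ∑ k ∈ S0.erase i, w k * a k) := by
    rw [hM, ← Finset.add_sum_erase S _ hiS, hsum, ← Finset.add_sum_erase S0 _ hi]
  have hle : μ i + w i ≤ M := by
    have h2 : (μ i + w i) * a i ≤ M * a i := by
      rw [h1, add_mul]
      omega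
    exact Nat.le_of_mul_le_mul_right h2 (by omega)
  have hm : (M - (μ i + w i)) * a i = ∑ k ∈ S0.erase i, w k * a k := by
    obtain ⟨t, ht⟩ := Nat.exists_eq_add_of_le hle
    rw [ht] at h1 ⊢
    rw [Nat.add_sub_cancel_left]
    have h3 : (μ i + w i + t) * a i = μ i * a i + w i * a i + t * a i := by ring
    omega
  have hm1 : 1 ≤ M - (μ i + w i) := by
    by_contra hcon
    have h0 : M - (μ i + w i) = 0 := by omega
    rw [h0, zero_mul] at hm
    have hw0 : ∀ k ∈ S0.erase i, w k = 0 := by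
      intro k hk
      have h4 := (Finset.sum_eq_zero_iff.1 hm.symm) k hk
      rcases Nat.mul_eq_zero.1 h4 with h5 | h5
      · exact h5
      · have := ha2 k (hS0 (Finset.mem_of_mem_erase hk))
        omega
    -- some `l ≠ i` has `μ l > 0`
    obtain ⟨l, hl, hlμ⟩ : ∃ l ∈ S.erase i, 0 < μ l := by
      by_contra hno
      push Not at hno
      have h5 : ∑ l ∈ S.erase i, μ l * a l = 0 := by
        refine Finset.sum_eq_zero fun l hl => ?_
        rw [Nat.le_zero.1 (hno l hl), zero_mul]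
      rw [← Finset.add_sum_erase S _ hiS, h5, add_zero] at hM
      have := Nat.eq_of_mul_eq_mul_right (by omega : 0 < a i) hM
      omega
    have hck : ∀ k ∈ S0.erase i, c l k = 0 := by
      intro k hk
      have h6 := hw0 k hk
      rw [hw] at h6
      simp only at h6
      have h7 := (Finset.sum_eq_zero_iff.1 h6) l hl
      rcases Nat.mul_eq_zero.1 h7 with h8 | h8
      · omega
      · exact h8
    have hal : a l = c l i * a i := by
      rw [← hc l (Finset.mem_of_mem_erase hl), ← Finset.add_sum_erase S0 _ hi,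
        Finset.sum_eq_zero (fun k hk => by rw [hck k hk, zero_mul]), add_zero]
    have hco := hcop i hiS l (Finset.mem_of_mem_erase hl) (Finset.ne_of_mem_erase hl).symm
    rw [hal] at hco
    have := Nat.Coprime.eq_one_of_dvd hco ⟨c l i, by ring⟩
    omega
  refine ⟨M - (μ i + w i), fun k => if k = i then 0 else w k, hm1, Nat.sub_le _ _, ?_, by simp, ?_⟩
  · rw [hm, ← Finset.add_sum_erase S0 (fun l => (if l = i then 0 else w l) * a l) hi]
    simp only [if_true, zero_mul, zero_add]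
    refine Finset.sum_congr rfl fun k hk => ?_
    rw [if_neg (Finset.ne_of_mem_erase hk)]
  · by_contra hno
    push Not at hno
    have h9 : ∑ k ∈ S0.erase i, w k * a k = 0 := by
      refine Finset.sum_eq_zero fun k hk => ?_
      have h10 := hno k (Finset.mem_of_mem_erase hk) (Finset.ne_of_mem_erase hk)
      rw [if_neg (Finset.ne_of_mem_erase hk)] at h10
      rw [Nat.le_zero.1 h10, zero_mul]
    rw [h9] at hm
    rcases Nat.mul_eq_zero.1 hm with h11 | h11 <;> omega

theorem core {S : Finset ι} {a : ι → ℕ} (hne : S.Nonempty) (ha2 : ∀ i ∈ S, 2 ≤ a i)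
    (hcop : ∀ i ∈ S, ∀ l ∈ S, i ≠ l → Nat.Coprime (a i) (a l)) (dJ P M : ι → ℕ) (μ : ι → ι → ℕ)
    (hM : ∀ i ∈ S, M i * a i = ∑ l ∈ S, μ i l * a l) (hμ : ∀ i ∈ S, μ i i < M i)
    (hMd : ∀ i ∈ S, M i * a i ≤ dJ i) (hP : ∀ i ∈ S, a i * P i ≤ dJ i) :
    ∃ T ⊆ S, T.Nonempty ∧ ∀ e : ℤ, ∑ i ∈ T, ((dJ i : ℤ) - a i - P i + 1) ≤ e →
      ∃ y : ι → ℕ, ∑ i ∈ S, (y i : ℤ) * a i = e := by
  classical
  set S0 := minGens S a with hS0def
  have hS0 : S0 ⊆ S := minGens_subset S a
  have hgen : ∀ i ∈ S, Gen S0 a (a i) := gen_minGens S a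
  have hS0ne : S0.Nonempty := by
    obtain ⟨i, hi⟩ := hne
    obtain ⟨y, hy⟩ := hgen i hi
    by_contra hcon
    rw [Finset.not_nonempty_iff_eq_empty] at hcon
    rw [hcon, Finset.sum_empty] at hy
    have := ha2 i hi
    omega
  obtain ⟨i1, hi1, hmin⟩ := Finset.exists_min_image S0 a hS0ne
  have hcard : S0.card ≤ a i1 := by
    refine minGens_card (fun i hi => by have := ha2 i hi; omega) ?_ hi1 hmin
    intro i hi l hl hil
    by_contra hne'
    have h1 := hcop i hi l hl hne'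
    rw [← hil, Nat.coprime_self] at h1
    have := ha2 i hi
    omega
  have hrel : ∀ i ∈ S0, ∃ (m : ℕ) (lam : ι → ℕ), 1 ≤ m ∧ m ≤ M i ∧
      m * a i = ∑ l ∈ S0, lam l * a l ∧ lam i = 0 ∧ ∃ l ∈ S0, l ≠ i ∧ 0 < lam l :=
    fun i hi => rel ha2 hcop hS0 hgen hi (hM i (hS0 hi)) (hμ i (hS0 hi))
  choose! m lam hm1 hmM hmrel hlam0 hlam using hrel
  -- a minimal closed nonempty subset
  obtain ⟨T, hT, hTmin⟩ := Finset.exists_min_image
    (S0.powerset.filter fun V => V.Nonempty ∧ ∀ i ∈ V, ∀ l ∈ S0, 0 < lam i l → l ∈ V) Finset.card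
    ⟨S0, Finset.mem_filter.2 ⟨Finset.mem_powerset.2 (Finset.Subset.refl _), hS0ne,
      fun i _ l hl _ => hl⟩⟩
  rw [Finset.mem_filter, Finset.mem_powerset] at hT
  obtain ⟨hTS0, hTne, hTcl⟩ := hT
  obtain ⟨i0, hi0, hmax⟩ := Finset.exists_max_image T dJ hTne
  have hTS : T ⊆ S := hTS0.trans hS0
  refine ⟨T, hTS, hTne, fun e he => ?_⟩
  -- Bezout
  obtain ⟨i3, hi3, hne3, hlam3⟩ := hlam i0 (hTS0 hi0)
  have hi3T : i3 ∈ T := hTcl i0 hi0 i3 hi3 hlam3
  obtain ⟨z, hz⟩ : ∃ z : ι → ℤ, ∑ i ∈ T, z i * (a i : ℤ) = 1 := by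
    have hco := hcop i0 (hTS hi0) i3 (hTS hi3T) hne3.symm
    have hbez : (1 : ℤ) = a i0 * Nat.gcdA (a i0) (a i3) + a i3 * Nat.gcdB (a i0) (a i3) := by
      rw [← Nat.gcd_eq_gcd_ab, Nat.Coprime.gcd_eq_one hco]
      rfl
    refine ⟨fun j => (if j = i0 then Nat.gcdA (a i0) (a i3) else 0) +
      (if j = i3 then Nat.gcdB (a i0) (a i3) else 0), ?_⟩
    simp only [add_mul, Finset.sum_add_distrib, ite_mul, zero_mul, Finset.sum_ite_eq', hi0, hi3T,
      if_true]
    rw [hbez]
    ring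
  have hrelT : ∀ i ∈ T, m i * a i = ∑ l ∈ T, lam i l * a l := by
    intro i hi
    rw [hmrel i (hTS0 hi)]
    symm
    refine Finset.sum_subset hTS0 fun l hl hlT => ?_
    have : ¬ 0 < lam i l := fun h => hlT (hTcl i hi l hl h)
    rw [Nat.eq_zero_of_not_pos this, zero_mul]
  have hreach : ∀ V ⊆ T, V.Nonempty → (∀ i ∈ V, ∀ l ∈ T, 0 < lam i l → l ∈ V) → i0 ∈ V := by
    intro V hVT hVne hVcl
    have h1 := hTmin V (Finset.mem_filter.2 ⟨Finset.mem_powerset.2 (hVT.trans hTS0), hVne,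
      fun i hi l hl hil => hVcl i hi l (hTcl i (hVT hi) l hl hil) hil⟩)
    rw [Finset.eq_of_subset_of_card_le hVT h1]
    exact hi0
  -- the bound
  have hPsum : ∑ i ∈ T, P i ≤ dJ i0 := by
    have h1 : a i1 * ∑ i ∈ T, P i ≤ a i1 * dJ i0 := by
      calc a i1 * ∑ i ∈ T, P i = ∑ i ∈ T, a i1 * P i := Finset.mul_sum _ _ _
        _ ≤ ∑ i ∈ T, a i * P i :=
            Finset.sum_le_sum fun i hi => Nat.mul_le_mul_right _ (hmin i (hTS0 hi))
        _ ≤ ∑ i ∈ T, dJ i := Finset.sum_le_sum fun i hi => hP i (hTS hi)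
        _ ≤ ∑ i ∈ T, dJ i0 := Finset.sum_le_sum fun i hi => hmax i hi
        _ = T.card * dJ i0 := by rw [Finset.sum_const, smul_eq_mul]
        _ ≤ a i1 * dJ i0 :=
            Nat.mul_le_mul_right _ ((Finset.card_le_card hTS0).trans hcard)
    exact Nat.le_of_mul_le_mul_left h1 (by have := ha2 i1 (hS0 hi1); omega)
  have hbound : ∑ i ∈ T.erase i0, ((m i : ℤ) - 1) * a i - a i0 < e := by
    have h1 : ∑ i ∈ T.erase i0, ((m i : ℤ) - 1) * a i ≤ ∑ i ∈ T.erase i0, ((dJ i : ℤ) - a i) := by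
      refine Finset.sum_le_sum fun i hi => ?_
      have hiT := Finset.mem_of_mem_erase hi
      have h2 : m i * a i ≤ dJ i :=
        (Nat.mul_le_mul_right _ (hmM i (hTS0 hiT))).trans (hMd i (hTS hiT))
      have h3 : ((m i : ℤ)) * a i ≤ dJ i := by exact_mod_cast h2
      linarith
    have h4 : ∑ i ∈ T, ((dJ i : ℤ) - a i - P i + 1) =
        ((dJ i0 : ℤ) - a i0) + ∑ i ∈ T.erase i0, ((dJ i : ℤ) - a i) - ∑ i ∈ T, (P i : ℤ) +
          T.card := by
      rw [Finset.add_sum_erase T (fun i => (dJ i : ℤ) - a i) hi0, Finset.sum_add_distrib,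
        Finset.sum_sub_distrib]
      simp
    have h5 : (∑ i ∈ T, (P i : ℤ)) ≤ dJ i0 := by exact_mod_cast hPsum
    have h6 : 0 < T.card := Finset.card_pos.2 hTne
    have h7 : (0 : ℤ) < T.card := by exact_mod_cast h6
    linarith
  obtain ⟨y, hy⟩ := chip hi0 (fun i hi => by have := ha2 i (hTS hi); omega) hrelT hreach hz hbound
  refine ⟨fun i => if i ∈ T then y i else 0, ?_⟩
  rw [← hy]
  symm
  rw [← Finset.sum_subset hTS (fun i _ hiT => by simp [hiT])]
  exact Finset.sum_congr rfl fun i hi => by simp [hi]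

end Pool.Agent.Run7.h277.WF
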