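import Pool.Agent.Run7.h277.WF.Gens

/-!
Base point freeness on subschemes of weighted projective spaces with pairwise coprime weights.
-/

set_option autoImplicit false

namespace Pool.Agent.Run7.h277.WF

open Finset MvPolynomial

section Poly

variable {σ K : Type} [Field K]

theorem exists_monomial {v : σ → K} {f : MvPolynomial σ K} (h : eval v f ≠ 0) :
    ∃ α ∈ f.support, ∀ l, α l ≠ 0 → v l ≠ 0 := by
  rw [eval_eq] at h
  obtain ⟨α, hα, hne⟩ := Finset.exists_ne_zero_of_sum_ne_zero h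
  refine ⟨α, hα, fun l hl hv => hne ?_⟩
  rw [Finset.prod_eq_zero (Finsupp.mem_support_iff.2 hl) (by rw [hv, zero_pow hl]), mul_zero]

theorem exists_monomial' {v : σ → K} {f : MvPolynomial σ K} (h : eval v f = 0) {α : σ →₀ ℕ}
    (hα : α ∈ f.support) (hαv : ∀ l, α l ≠ 0 → v l ≠ 0) :
    ∃ β ∈ f.support, β ≠ α ∧ ∀ l, β l ≠ 0 → v l ≠ 0 := by
  classical
  by_contra hcon
  push Not at hcon
  rw [eval_eq, ← Finset.add_sum_erase _ _ hα, Finset.sum_eq_zero, add_zero] at h
  · rcases mul_eq_zero.1 h with h1 | h1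
    · exact (MvPolynomial.mem_support_iff.1 hα) h1
    · obtain ⟨l, hl, hl0⟩ := Finset.prod_eq_zero_iff.1 h1
      exact hαv l (Finsupp.mem_support_iff.1 hl) (pow_eq_zero_iff (Finsupp.mem_support_iff.1 hl)
        |>.1 hl0)
  · intro β hβ
    obtain ⟨l, hl, hvl⟩ := hcon β (Finset.mem_of_mem_erase hβ) (Finset.ne_of_mem_erase hβ)
    rw [Finset.prod_eq_zero (Finsupp.mem_support_iff.2 hl) (by rw [hvl, zero_pow hl]), mul_zero]

theorem weight_eq [Fintype σ] {a : σ → ℕ} {f : MvPolynomial σ K} {d : ℕ}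
    (hf : IsWeightedHomogeneous a f d) {α : σ →₀ ℕ} (hα : α ∈ f.support) :
    ∑ i, α i * a i = d := by
  have h := hf (MvPolynomial.mem_support_iff.1 hα)
  rw [Finsupp.weight_apply, Finsupp.sum_fintype _ _ (fun i => by simp)] at h
  simpa using h

end Poly

theorem prod_ge {σ : Type} [DecidableEq σ] {a : σ → ℕ} (ha : ∀ i, 0 < a i) (B : Finset σ) :
    1 + ∑ i ∈ B, ((a i : ℤ) - 1) ≤ ((∏ i ∈ B, a i : ℕ) : ℤ) := by
  induction B using Finset.induction_on with
  | empty => simp
  | insert i B hi ih =>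
    rw [Finset.sum_insert hi, Finset.prod_insert hi]
    push_cast at ih ⊢
    have h1 : (1 : ℤ) ≤ a i := by exact_mod_cast ha i
    have h2 : (1 : ℤ) ≤ ∏ l ∈ B, (a l : ℤ) := by
      have : 0 < ∏ l ∈ B, a l := Finset.prod_pos fun l _ => ha l
      exact_mod_cast this
    nlinarith

theorem prod_dvd {σ : Type} [DecidableEq σ] {a : σ → ℕ}
    (hcop : ∀ i i', i ≠ i' → Nat.Coprime (a i) (a i')) {D : ℕ} (B : Finset σ)
    (hB : ∀ i ∈ B, a i ∣ D) : ∏ i ∈ B, a i ∣ D := by
  induction B using Finset.induction_on with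
  | empty => simp
  | insert i B hi ih =>
    rw [Finset.prod_insert hi]
    refine Nat.Coprime.mul_dvd_of_dvd_of_dvd ?_ (hB i (Finset.mem_insert_self _ _))
      (ih fun l hl => hB l (Finset.mem_insert_of_mem hl))
    exact Nat.Coprime.prod_right fun l hl => hcop i l (fun h => hi (h ▸ hl))

/-- two coprime generators -/
theorem pair_gen {p q : ℕ} (hp : 2 ≤ p) (hq : 2 ≤ q) (h : Nat.Coprime p q) {e : ℤ}
    (he : ((p : ℤ) - 1) * (q - 1) ≤ e) : ∃ x y : ℕ, (x : ℤ) * p + y * q = e := by
  have he0 : 0 ≤ e := by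
    have h1 : (0 : ℤ) ≤ ((p : ℤ) - 1) * (q - 1) := by
      apply mul_nonneg <;> · have : (2 : ℤ) ≤ p := by exact_mod_cast hp
                             have : (2 : ℤ) ≤ q := by exact_mod_cast hq
                             linarith
    linarith
  obtain ⟨N, rfl⟩ := Int.eq_ofNat_of_zero_le he0
  have hF := frobeniusNumber_pair h (by omega) (by omega)
  have hmem : N ∈ AddSubmonoid.closure ({p, q} : Set ℕ) := by
    by_contra hcon
    have h2 : N ≤ p * q - p - q := hF.2 hcon
    have h3 : p + q ≤ p * q := by nlinarith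
    have h4 : (N : ℤ) ≤ p * q - p - q := by
      have h5 : N + p + q ≤ p * q := by omega
      have h6 : ((N + p + q : ℕ) : ℤ) ≤ ((p * q : ℕ) : ℤ) := by exact_mod_cast h5
      push_cast at h6
      linarith
    nlinarith
  obtain ⟨x, y, hxy⟩ := (AddSubmonoid.mem_closure_pair p q N).1 hmem
  refine ⟨x, y, ?_⟩
  have : x * p + y * q = N := by simpa using hxy
  exact_mod_cast this

theorem main {σ K κ : Type} [Fintype σ] [DecidableEq σ] [Field K] [Fintype κ] (a : σ → ℕ)
    (ha : ∀ i, 0 < a i) (hcop : ∀ i i', i ≠ i' → Nat.Coprime (a i) (a i')) (d : κ → ℕ)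
    (hd : ∀ j, 0 < d j) (f : κ → MvPolynomial σ K)
    (hf : ∀ j, IsWeightedHomogeneous a (f j) (d j))
    (hX : ∀ i, 2 ≤ a i → ∃ j, eval (Pi.single i 1 : σ → K) (f j) ≠ 0)
    (e : ℤ) (he : ∑ j, ((d j : ℤ) - 1) - ∑ i, ((a i : ℤ) - 1) ≤ e) :
    0 ≤ e ∧ ∀ v : σ → K, v ≠ 0 → (∀ j, eval v (f j) = 0) →
      ∃ y : σ → ℕ, (∀ i, y i ≠ 0 → v i ≠ 0) ∧ ∑ i, (y i : ℤ) * a i = e := by
  classical
  rcases isEmpty_or_nonempty κ with hemp | hnon
  · have ha1 : ∀ i, a i = 1 := by
      intro i
      by_contra hcon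
      obtain ⟨j, -⟩ := hX i (by have := ha i; omega)
      exact hemp.elim j
    have he0 : 0 ≤ e := by
      have h1 : ∑ j : κ, ((d j : ℤ) - 1) = 0 := Finset.sum_eq_zero fun j _ => hemp.elim j
      have h2 : ∑ i, ((a i : ℤ) - 1) = 0 := Finset.sum_eq_zero fun i _ => by rw [ha1 i]; simp
      rw [h1, h2] at he
      simpa using he
    refine ⟨he0, fun v hv _ => ?_⟩
    obtain ⟨i, hi⟩ := Function.ne_iff.1 hv
    obtain ⟨N, hN⟩ := Int.eq_ofNat_of_zero_le he0
    refine ⟨fun l => if l = i then N else 0, fun l hl => ?_, ?_⟩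
    · by_cases hli : l = i
      · rw [hli]; exact hi
      · simp [hli] at hl
    · rw [Finset.sum_eq_single i]
      · simp [ha1, hN]
      · intro l _ hl
        simp [hl]
      · intro h; exact absurd (Finset.mem_univ i) h
  choose! J hJ using hX
  -- the pure powers
  have hpure : ∀ i, 2 ≤ a i → ∃ M : ℕ, (Finsupp.single i M : σ →₀ ℕ) ∈ (f (J i)).support ∧
      M * a i = d (J i) := by
    intro i hi
    obtain ⟨α, hα, hαv⟩ := exists_monomial (hJ i hi)
    have h1 : α = Finsupp.single i (α i) := by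
      ext l
      by_cases hl : l = i
      · subst hl; simp
      · rw [Finsupp.single_eq_of_ne hl]
        by_contra hcon
        exact hαv l hcon (by rw [Pi.single_eq_of_ne hl])
    refine ⟨α i, h1 ▸ hα, ?_⟩
    have h2 := weight_eq (hf (J i)) hα
    rw [Finset.sum_eq_single i] at h2
    · exact h2
    · intro l _ hl
      have : α l = 0 := by
        rw [h1, Finsupp.single_eq_of_ne hl]
      rw [this, zero_mul]
    · intro h; exact absurd (Finset.mem_univ i) h
  choose! M hMs hMd using hpure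
  set B : κ → Finset σ := fun j => Finset.univ.filter fun i => 2 ≤ a i ∧ J i = j with hB
  have hBdvd : ∀ j, ∏ i ∈ B j, a i ∣ d j := by
    intro j
    refine prod_dvd hcop _ fun i hi => ?_
    rw [hB] at hi
    obtain ⟨-, h2, h3⟩ := Finset.mem_filter.1 hi
    rw [← h3, ← hMd i h2]
    exact ⟨M i, by ring⟩
  have hBle : ∀ j, ∏ i ∈ B j, a i ≤ d j := fun j => Nat.le_of_dvd (hd j) (hBdvd j)
  set ε : κ → ℤ := fun j => (d j : ℤ) - 1 - ∑ i ∈ B j, ((a i : ℤ) - 1) with hε
  have hε0 : ∀ j, 0 ≤ ε j := by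
    intro j
    have h1 := prod_ge ha (B j)
    have h2 : ((∏ i ∈ B j, a i : ℕ) : ℤ) ≤ d j := by exact_mod_cast hBle j
    rw [hε]
    simp only
    linarith
  have hsumB : ∑ i, ((a i : ℤ) - 1) = ∑ j, ∑ i ∈ B j, ((a i : ℤ) - 1) := by
    have h1 : ∑ i, ((a i : ℤ) - 1) = ∑ i ∈ Finset.univ.filter (fun i => 2 ≤ a i),
        ((a i : ℤ) - 1) := by
      symm
      refine Finset.sum_subset (Finset.filter_subset _ _) fun i _ hi => ?_
      have h2 : ¬ 2 ≤ a i := fun h => hi (Finset.mem_filter.2 ⟨Finset.mem_univ _, h⟩)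
      have h3 := ha i
      have h4 : a i = 1 := by omega
      rw [h4]; simp
    rw [h1, ← Finset.sum_fiberwise (Finset.univ.filter (fun i => 2 ≤ a i)) J]
    refine Finset.sum_congr rfl fun j _ => ?_
    rw [hB]
    simp only
    rw [Finset.filter_filter]
  have heε : ∑ j, ε j ≤ e := by
    rw [hε]
    simp only
    rw [Finset.sum_sub_distrib, ← hsumB]
    exact he
  have he0 : 0 ≤ e := (Finset.sum_nonneg fun j _ => hε0 j).trans heε
  refine ⟨he0, fun v hv hvf => ?_⟩
  set S : Finset σ := Finset.univ.filter fun i => v i ≠ 0 with hS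
  have hmemS : ∀ i, i ∈ S ↔ v i ≠ 0 := fun i => by simp [hS]
  -- it is enough to work in the support
  suffices hsuff : ∃ y : σ → ℕ, ∑ i ∈ S, (y i : ℤ) * a i = e by
    obtain ⟨y, hy⟩ := hsuff
    refine ⟨fun i => if i ∈ S then y i else 0, fun i hi => ?_, ?_⟩
    · by_contra hcon
      exact hi (if_neg (fun h => (hmemS i).1 h hcon))
    · rw [← hy]
      symm
      rw [← Finset.sum_subset (Finset.subset_univ S) (fun i _ hiS => by simp [hiS])]
      exact Finset.sum_congr rfl fun i hi => by simp [hi]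
  have hSne : S.Nonempty := by
    obtain ⟨i, hi⟩ := Function.ne_iff.1 hv
    exact ⟨i, (hmemS i).2 hi⟩
  by_cases hone : ∃ i ∈ S, a i = 1
  · obtain ⟨i, hi, hi1⟩ := hone
    obtain ⟨N, hN⟩ := Int.eq_ofNat_of_zero_le he0
    refine ⟨fun l => if l = i then N else 0, ?_⟩
    rw [Finset.sum_eq_single i]
    · simp [hi1, hN]
    · intro l _ hl
      simp [hl]
    · intro h; exact absurd hi h
  push Not at hone
  have ha2 : ∀ i ∈ S, 2 ≤ a i := by
    intro i hi
    have := hone i hi
    have := ha i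
    omega
  have hcopS : ∀ i ∈ S, ∀ l ∈ S, i ≠ l → Nat.Coprime (a i) (a l) := fun i _ l _ h => hcop i l h
  by_cases hinj : ∀ i ∈ S, ∀ l ∈ S, J i = J l → i = l
  · -- the second monomials
    have hsec : ∀ i ∈ S, ∃ μ : σ → ℕ, M i * a i = ∑ l ∈ S, μ l * a l ∧ μ i < M i := by
      intro i hi
      have hi2 := ha2 i hi
      obtain ⟨β, hβ, hβne, hβv⟩ := exists_monomial' (hvf (J i)) (hMs i hi2) (by
        intro l hl
        by_cases hli : l = i
        · rw [hli]; exact (hmemS i).1 hi
        · exact absurd (Finsupp.single_eq_of_ne hli) hl)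
      have h1 := weight_eq (hf (J i)) hβ
      have h2 : ∑ l ∈ S, β l * a l = d (J i) := by
        rw [← h1]
        refine Finset.sum_subset (Finset.subset_univ S) fun l _ hl => ?_
        have h3 : β l = 0 := by
          by_contra hcon
          exact hl ((hmemS l).2 (hβv l hcon))
        rw [h3, zero_mul]
      refine ⟨fun l => β l, by rw [hMd i hi2, h2], ?_⟩
      have h4 : β i * a i + ∑ l ∈ Finset.univ.erase i, β l * a l = M i * a i := by
        rw [Finset.add_sum_erase _ (fun l => β l * a l) (Finset.mem_univ i), h1, hMd i hi2]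
      by_contra hcon
      push Not at hcon
      have h5 : M i * a i ≤ β i * a i := Nat.mul_le_mul_right _ hcon
      have h6 : ∑ l ∈ Finset.univ.erase i, β l * a l = 0 := by omega
      have h7 : β i = M i := by
        rw [h6, add_zero] at h4
        exact Nat.eq_of_mul_eq_mul_right (ha i) h4
      apply hβne
      ext l
      by_cases hli : l = i
      · rw [hli, h7]; simp
      · rw [Finsupp.single_eq_of_ne hli]
        have h8 := (Finset.sum_eq_zero_iff.1 h6) l (Finset.mem_erase.2 ⟨hli, Finset.mem_univ _⟩)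
        rcases Nat.mul_eq_zero.1 h8 with h9 | h9
        · exact h9
        · have := ha l
          omega
    choose! μ hμ hμlt using hsec
    have hiB : ∀ i ∈ S, i ∈ B (J i) := fun i hi => by
      rw [hB]
      exact Finset.mem_filter.2 ⟨Finset.mem_univ _, ha2 i hi, rfl⟩
    obtain ⟨T, hTS, hTne, hT⟩ := core hSne ha2 hcopS (fun i => d (J i))
      (fun i => ∏ l ∈ (B (J i)).erase i, a l) M μ hμ hμlt (fun i hi => (hMd i (ha2 i hi)).le)
      (fun i hi => by
        rw [Finset.mul_prod_erase (B (J i)) a (hiB i hi)]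
        exact hBle (J i))
    refine hT e (le_trans ?_ heε)
    have h1 : ∑ i ∈ T, ((d (J i) : ℤ) - a i - (∏ l ∈ (B (J i)).erase i, a l : ℕ) + 1) ≤
        ∑ i ∈ T, ε (J i) := by
      refine Finset.sum_le_sum fun i hi => ?_
      have h2 := prod_ge ha ((B (J i)).erase i)
      have h3 := Finset.add_sum_erase (B (J i)) (fun l => (a l : ℤ) - 1) (hiB i (hTS hi))
      rw [hε]
      simp only
      rw [← h3]
      linarith
    refine h1.trans ?_
    have h4 : ∑ i ∈ T, ε (J i) = ∑ j ∈ T.image J, ε j := by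
      rw [Finset.sum_image]
      intro i hi l hl hil
      exact hinj i (hTS hi) l (hTS hl) hil
    rw [h4]
    exact Finset.sum_le_sum_of_subset_of_nonneg (Finset.subset_univ _) fun j _ _ => hε0 j
  · push Not at hinj
    obtain ⟨i, hi, l, hl, hJil, hne⟩ := hinj
    have hiB : i ∈ B (J i) := by
      rw [hB]
      exact Finset.mem_filter.2 ⟨Finset.mem_univ _, ha2 i hi, rfl⟩
    have hlB : l ∈ (B (J i)).erase i := by
      rw [hB]
      exact Finset.mem_erase.2 ⟨hne.symm, Finset.mem_filter.2 ⟨Finset.mem_univ _, ha2 l hl,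
        hJil.symm⟩⟩
    have h1 := prod_ge ha (((B (J i)).erase i).erase l)
    have h2 : (a i : ℤ) * (a l * ((∏ k ∈ ((B (J i)).erase i).erase l, a k : ℕ) : ℤ)) ≤ d (J i) := by
      have h3 := hBle (J i)
      rw [← Finset.mul_prod_erase _ a hiB, ← Finset.mul_prod_erase _ a hlB] at h3
      exact_mod_cast h3
    have h4 : ε (J i) ≤ e := by
      refine le_trans ?_ heε
      exact Finset.single_le_sum (fun j _ => hε0 j) (Finset.mem_univ (J i))
    have h5 : ε (J i) = (d (J i) : ℤ) - 1 - (((a i : ℤ) - 1) + (((a l : ℤ) - 1) +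
        ∑ k ∈ ((B (J i)).erase i).erase l, ((a k : ℤ) - 1))) := by
      rw [hε]
      simp only
      rw [Finset.add_sum_erase _ (fun k => (a k : ℤ) - 1) hlB,
        Finset.add_sum_erase _ (fun k => (a k : ℤ) - 1) hiB]
    have hi2 : (2 : ℤ) ≤ a i := by exact_mod_cast ha2 i hi
    have hl2 : (2 : ℤ) ≤ a l := by exact_mod_cast ha2 l hl
    have hQ : (1 : ℤ) ≤ ((∏ k ∈ ((B (J i)).erase i).erase l, a k : ℕ) : ℤ) := by
      have : 0 < ∏ k ∈ ((B (J i)).erase i).erase l, a k := Finset.prod_pos fun k _ => ha k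
      exact_mod_cast this
    generalize ((∏ k ∈ ((B (J i)).erase i).erase l, a k : ℕ) : ℤ) = Q at h1 h2 hQ
    generalize ∑ k ∈ ((B (J i)).erase i).erase l, ((a k : ℤ) - 1) = R at h1 h5
    have h6 : ((a i : ℤ) - 1) * (a l - 1) ≤ e := by
      have h7 : (0 : ℤ) ≤ ((a i : ℤ) * a l - 1) * (Q - 1) := by
        apply mul_nonneg
        · nlinarith
        · linarith
      nlinarith
    obtain ⟨x, y, hxy⟩ := pair_gen (ha2 i hi) (ha2 l hl) (hcop i l hne) h6
    refine ⟨fun k => (if k = i then x else 0) + (if k = l then y else 0), ?_⟩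
    push_cast
    simp only [add_mul, Finset.sum_add_distrib, ite_mul, zero_mul, Finset.sum_ite_eq', hi, hl,
      if_true]
    exact hxy

end Pool.Agent.Run7.h277.WF
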